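import Mathlib

set_option autoImplicit false

namespace Pool.Agent.Results.MP_ced6ff_co.Doubling

/-! ### Abstract core: signed automorphisms of sign matrices -/

section core

variable {X : Type*}

/-- Apply `γ` off the `γ`-invariant set `P`. -/
def permIf (P : X → Prop) [DecidablePred P] (γ : Equiv.Perm X) (h : ∀ x, P (γ x) ↔ P x) :
    Equiv.Perm X where
  toFun x := if P x then x else γ x
  invFun x := if P x then x else γ.symm x
  left_inv x := by
    by_cases hx : P x
    · simp [hx]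
    · have : ¬ P (γ x) := fun h' => hx ((h x).1 h')
      simp [hx, this]
  right_inv x := by
    by_cases hx : P x
    · simp [hx]
    · have : ¬ P (γ.symm x) := fun h' => hx (by have := (h (γ.symm x)).2 h'; simpa using this)
      simp [hx, this]

lemma permIf_exists (P : X → Prop) (γ : Equiv.Perm X) (h : ∀ x, P (γ x) ↔ P x) :
    ∃ F : Equiv.Perm X, (∀ x, P x → F x = x) ∧ (∀ x, ¬ P x → F x = γ x) := by
  classical
  exact ⟨permIf P γ h, fun x hx => if_pos hx, fun x hx => if_neg hx⟩

variable {R C : Type*}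

lemma uu (x : ℤˣ) : x * x = 1 := Int.units_mul_self x

lemma unit_ne {x : ℤˣ} (h : x ≠ 1) : x = -1 := (Int.units_eq_one_or x).resolve_left h

lemma core_step (M : R → C → ℤˣ) (v1 v2 : R → ℤˣ) (β1 β2 : Equiv.Perm C) (s1 s2 : C → ℤˣ)
    (hβ1 : ∀ r c, M r (β1 c) = s1 c * v1 r * M r c)
    (hβ2 : ∀ r c, M r (β2 c) = s2 c * v2 r * M r c)
    (α : Equiv.Perm R) (w : C → ℤˣ) (t : R → ℤˣ)
    (hα : ∀ r c, M (α r) c = t r * w c * M r c)
    (h1 : ∀ r, v1 (α r) = - v1 r) (h2 : ∀ r, v2 (α r) = - v2 r)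
    (hw : ∀ c, w (β1 (β2 c)) = w c) :
    ∃ (F : Equiv.Perm R) (G : Equiv.Perm C) (a : R → ℤˣ) (b : C → ℤˣ),
      (∀ r c, M (F r) (G c) = a r * b c * M r c) ∧ ∀ r, v1 (F r) = v2 r := by
  classical
  have hu : ∀ r, v1 (α r) * v2 (α r) = v1 r * v2 r := by
    intro r; rw [h1, h2]; simp
  obtain ⟨F, F1, F2⟩ := permIf_exists (fun r => v1 r * v2 r = 1) α (fun r => by rw [hu r])
  obtain ⟨G, G1, G2⟩ := permIf_exists (fun c => w c = 1) (β2.trans β1) (fun c => by
      show w (β1 (β2 c)) = 1 ↔ _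
      rw [hw])
  have G2' : ∀ c, ¬ w c = 1 → G c = β1 (β2 c) := G2
  refine ⟨F, G, fun r => if v1 r * v2 r = 1 then 1 else t r,
    fun c => if w c = 1 then 1 else s1 (β2 c) * s2 c, ?_, ?_⟩
  · intro r c
    have hγ : ∀ r, M r (β1 (β2 c)) = (s1 (β2 c) * s2 c) * (v1 r * v2 r) * M r c := by
      intro r
      rw [hβ1, hβ2]
      simp only [mul_assoc, mul_left_comm, mul_comm]
    show M (F r) (G c) = (if v1 r * v2 r = 1 then 1 else t r) *
      (if w c = 1 then 1 else s1 (β2 c) * s2 c) * M r c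
    by_cases hr : v1 r * v2 r = 1
    · by_cases hc : w c = 1
      · rw [F1 r hr, G1 c hc, if_pos hr, if_pos hc]; simp
      · rw [F1 r hr, G2' c hc, if_pos hr, if_neg hc, hγ, hr]; simp
    · by_cases hc : w c = 1
      · rw [F2 r hr, G1 c hc, if_neg hr, if_pos hc, hα, hc]
      · rw [F2 r hr, G2' c hc, if_neg hr, if_neg hc, hα, hγ, hw, unit_ne hr, unit_ne hc]
        simp [mul_assoc]
  · intro r
    by_cases hr : v1 r * v2 r = 1
    · rw [F1 r hr]
      have := congrArg (· * v2 r) hr
      simpa [mul_assoc, uu] using this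
    · rw [F2 r hr, h1]
      have h3 := unit_ne hr
      have := congrArg (· * v2 r) h3
      simp only [mul_assoc, uu, mul_one] at this
      rw [this]; simp

lemma core (M : R → C → ℤˣ) (v1 v2 : R → ℤˣ) (w1 w2 : C → ℤˣ) (α1 α2 : Equiv.Perm R)
    (β1 β2 : Equiv.Perm C) (t1 t2 : R → ℤˣ) (s1 s2 : C → ℤˣ)
    (hα1 : ∀ r c, M (α1 r) c = t1 r * w1 c * M r c)
    (hα2 : ∀ r c, M (α2 r) c = t2 r * w2 c * M r c)
    (hβ1 : ∀ r c, M r (β1 c) = s1 c * v1 r * M r c)
    (hβ2 : ∀ r c, M r (β2 c) = s2 c * v2 r * M r c)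
    (hv1 : ∀ r, v1 (α1 r) = - v1 r) (hv2 : ∀ r, v2 (α2 r) = - v2 r)
    (hw1 : ∀ c, w1 (β1 c) = - w1 c) (hw2 : ∀ c, w2 (β2 c) = - w2 c) (r0 : R) (c0 : C) :
    ∃ (F : Equiv.Perm R) (G : Equiv.Perm C) (a : R → ℤˣ) (b : C → ℤˣ),
      (∀ r c, M (F r) (G c) = a r * b c * M r c) ∧ ∀ r, v1 (F r) = v2 r := by
  -- the first compatibility sign
  have k1 : ∀ r c, v2 (α1 r) * w1 c = w1 (β2 c) * v2 r := by
    intro r c
    have e1 := hβ2 (α1 r) c
    rw [hα1, hα1, hβ2] at e1
    have e2 : (t1 r * s2 c * M r c) * (w1 (β2 c) * v2 r) = (t1 r * s2 c * M r c) * (v2 (α1 r) * w1 c) := by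
      calc (t1 r * s2 c * M r c) * (w1 (β2 c) * v2 r) = t1 r * w1 (β2 c) * (s2 c * v2 r * M r c) := by
            simp only [mul_assoc, mul_left_comm, mul_comm]
        _ = s2 c * v2 (α1 r) * (t1 r * w1 c * M r c) := e1
        _ = _ := by simp only [mul_assoc, mul_left_comm, mul_comm]
    exact (mul_left_cancel e2).symm
  have k2 : ∀ r c, v1 (α2 r) * w2 c = w2 (β1 c) * v1 r := by
    intro r c
    have e1 := hβ1 (α2 r) c
    rw [hα2, hα2, hβ1] at e1
    have e2 : (t2 r * s1 c * M r c) * (w2 (β1 c) * v1 r) = (t2 r * s1 c * M r c) * (v1 (α2 r) * w2 c) := by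
      calc (t2 r * s1 c * M r c) * (w2 (β1 c) * v1 r) = t2 r * w2 (β1 c) * (s1 c * v1 r * M r c) := by
            simp only [mul_assoc, mul_left_comm, mul_comm]
        _ = s1 c * v1 (α2 r) * (t2 r * w2 c * M r c) := e1
        _ = _ := by simp only [mul_assoc, mul_left_comm, mul_comm]
    exact (mul_left_cancel e2).symm
  -- constants
  have c1 : ∃ η : ℤˣ, (∀ r, v2 (α1 r) = η * v2 r) ∧ (∀ c, w1 (β2 c) = η * w1 c) := by
    refine ⟨v2 (α1 r0) * v2 r0, ?_, ?_⟩
    · intro r
      have a1 := k1 r c0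
      have a2 := k1 r0 c0
      -- v2(α r) = w1(β2 c0) v2 r w1 c0 ; v2 (α r0) = w1 (β2 c0) v2 r0 w1 c0
      have b1 : v2 (α1 r) = w1 (β2 c0) * v2 r * w1 c0 := by
        rw [← a1, mul_assoc, uu, mul_one]
      have b2 : v2 (α1 r0) = w1 (β2 c0) * v2 r0 * w1 c0 := by
        rw [← a2, mul_assoc, uu, mul_one]
      rw [b1, b2]
      have := uu (v2 r0)
      calc w1 (β2 c0) * v2 r * w1 c0 = w1 (β2 c0) * w1 c0 * v2 r * 1 := by
            rw [mul_one]; simp only [mul_assoc, mul_left_comm, mul_comm]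
        _ = w1 (β2 c0) * w1 c0 * v2 r * (v2 r0 * v2 r0) := by rw [this]
        _ = _ := by simp only [mul_assoc, mul_left_comm, mul_comm]
    · intro c
      have a1 := k1 r0 c
      have b1 : w1 (β2 c) = v2 (α1 r0) * w1 c * v2 r0 := by
        rw [a1, mul_assoc, uu, mul_one]
      rw [b1]
      simp only [mul_assoc, mul_left_comm, mul_comm]
  have c2 : ∃ η : ℤˣ, (∀ r, v1 (α2 r) = η * v1 r) ∧ (∀ c, w2 (β1 c) = η * w2 c) := by
    refine ⟨v1 (α2 r0) * v1 r0, ?_, ?_⟩
    · intro r
      have a1 := k2 r c0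
      have a2 := k2 r0 c0
      have b1 : v1 (α2 r) = w2 (β1 c0) * v1 r * w2 c0 := by
        rw [← a1, mul_assoc, uu, mul_one]
      have b2 : v1 (α2 r0) = w2 (β1 c0) * v1 r0 * w2 c0 := by
        rw [← a2, mul_assoc, uu, mul_one]
      rw [b1, b2]
      have := uu (v1 r0)
      calc w2 (β1 c0) * v1 r * w2 c0 = w2 (β1 c0) * w2 c0 * v1 r * 1 := by
            rw [mul_one]; simp only [mul_assoc, mul_left_comm, mul_comm]
        _ = w2 (β1 c0) * w2 c0 * v1 r * (v1 r0 * v1 r0) := by rw [this]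
        _ = _ := by simp only [mul_assoc, mul_left_comm, mul_comm]
    · intro c
      have a1 := k2 r0 c
      have b1 : w2 (β1 c) = v1 (α2 r0) * w2 c * v1 r0 := by
        rw [a1, mul_assoc, uu, mul_one]
      rw [b1]
      simp only [mul_assoc, mul_left_comm, mul_comm]
  obtain ⟨η, e1, e2⟩ := c1
  obtain ⟨η', e3, e4⟩ := c2
  rcases Int.units_eq_one_or η with hη | hη
  · rcases Int.units_eq_one_or η' with hη' | hη'
    · -- both `+1`: use `α1 ∘ α2`
      subst hη hη'
      refine core_step M v1 v2 β1 β2 s1 s2 hβ1 hβ2 (α2.trans α1) (fun c => w1 c * w2 c)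
        (fun r => t1 (α2 r) * t2 r) ?_ ?_ ?_ ?_
      · intro r c
        show M (α1 (α2 r)) c = _
        rw [hα1, hα2]
        simp only [mul_assoc, mul_left_comm, mul_comm]
      · intro r
        show v1 (α1 (α2 r)) = _
        rw [hv1, e3, one_mul]
      · intro r
        show v2 (α1 (α2 r)) = _
        rw [e1, one_mul, hv2]
      · intro c
        rw [hw1, e2, e4, hw2]
        simp
    · subst hη hη'
      refine core_step M v1 v2 β1 β2 s1 s2 hβ1 hβ2 α2 w2 t2 hα2 ?_ hv2 ?_
      · intro r; rw [e3]; simp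
      · intro c; rw [e4, hw2]; simp
  · subst hη
    refine core_step M v1 v2 β1 β2 s1 s2 hβ1 hβ2 α1 w1 t1 hα1 hv1 ?_ ?_
    · intro r; rw [e1]; simp
    · intro c; rw [hw1, e2]; simp

end core

/-! ### The doubling of a sign matrix -/

section double

variable {ι : Type*}

def sg (e : Bool) : ℤˣ := if e then -1 else 1

lemma sg_not (e : Bool) : sg (!e) = - sg e := by cases e <;> simp [sg]

lemma sg_inj {a b : Bool} (h : sg a = sg b) : a = b := by
  revert h; revert a b; decide

def chi (e d : Bool) : ℤˣ := if e && d then -1 else 1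

lemma chi_not_left (e d : Bool) : chi (!e) d = sg d * chi e d := by cases e <;> cases d <;> simp [sg, chi]
lemma chi_not_right (e d : Bool) : chi e (!d) = sg e * chi e d := by cases e <;> cases d <;> simp [sg, chi]

/-- doubling -/
def dbl (H : ι → ι → ℤˣ) : Bool × ι → Bool × ι → ℤˣ := fun r c => chi r.1 c.1 * H r.2 c.2

lemma self_eq_neg_unit {x : ℤˣ} (h : x = -x) : False := by
  rcases Int.units_eq_one_or x with rfl | rfl <;> revert h <;> decide

/-- swap the Boolean coordinate -/
def flip (ι : Type*) : Equiv.Perm (Bool × ι) where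
  toFun x := (!x.1, x.2)
  invFun x := (!x.1, x.2)
  left_inv x := by simp
  right_inv x := by simp

lemma dbl_flip_left (H : ι → ι → ℤˣ) (r c : Bool × ι) : dbl H (flip ι r) c = sg c.1 * dbl H r c := by
  show chi (!r.1) c.1 * H r.2 c.2 = sg c.1 * (chi r.1 c.1 * H r.2 c.2)
  rw [chi_not_left, mul_assoc]

lemma dbl_flip_right (H : ι → ι → ℤˣ) (r c : Bool × ι) : dbl H r (flip ι c) = sg r.1 * dbl H r c := by
  show chi r.1 (!c.1) * H r.2 c.2 = sg r.1 * (chi r.1 c.1 * H r.2 c.2)
  rw [chi_not_right, mul_assoc]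

/-- signed equivalence of sign matrices -/
def SEq {R C : Type*} (M M' : R → C → ℤˣ) : Prop :=
  ∃ (σ : Equiv.Perm R) (τ : Equiv.Perm C) (a : R → ℤˣ) (b : C → ℤˣ),
    ∀ r c, M' r c = a r * b c * M (σ r) (τ c)

theorem dbl_injective [Finite ι] (H H' : ι → ι → ℤˣ) (h : SEq (dbl H) (dbl H')) : SEq H H' := by
  classical
  rcases isEmpty_or_nonempty ι with hι | ⟨⟨i0⟩⟩
  · exact ⟨1, 1, fun i => (hι.false i).elim, fun i => (hι.false i).elim, fun i => (hι.false i).elim⟩
  obtain ⟨σ, τ, a, b, hM⟩ := h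
  -- second structure on `dbl H`
  have hM' : ∀ r c, dbl H r c = a (σ.symm r) * b (τ.symm c) * dbl H' (σ.symm r) (τ.symm c) := by
    intro r c
    rw [hM, Equiv.apply_symm_apply, Equiv.apply_symm_apply, ← mul_assoc]
    have : a (σ.symm r) * b (τ.symm c) * (a (σ.symm r) * b (τ.symm c)) = 1 := uu _
    rw [this, one_mul]
  obtain ⟨F, G, a', b', hFG, hv⟩ := core (dbl H) (fun r => sg r.1) (fun r => sg (σ.symm r).1)
    (fun c => sg c.1) (fun c => sg (τ.symm c).1) (flip ι) ((σ.symm.trans (flip ι)).trans σ)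
    (flip ι) ((τ.symm.trans (flip ι)).trans τ) (fun _ => 1)
    (fun r => a (flip ι (σ.symm r)) * a (σ.symm r)) (fun _ => 1)
    (fun c => b (flip ι (τ.symm c)) * b (τ.symm c))
    (fun r c => by rw [dbl_flip_left, one_mul])
    (fun r c => by
      show dbl H (σ (flip ι (σ.symm r))) c = _
      rw [hM' (σ (flip ι (σ.symm r))) c, hM' r c, Equiv.symm_apply_apply, dbl_flip_left]
      generalize dbl H' (σ.symm r) (τ.symm c) = x
      have h1 := uu (a (σ.symm r))
      calc a (flip ι (σ.symm r)) * b (τ.symm c) * (sg (τ.symm c).1 * x)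
          = 1 * (a (flip ι (σ.symm r)) * b (τ.symm c) * (sg (τ.symm c).1 * x)) := (one_mul _).symm
        _ = (a (σ.symm r) * a (σ.symm r)) * (a (flip ι (σ.symm r)) * b (τ.symm c) * (sg (τ.symm c).1 * x)) := by rw [h1]
        _ = _ := by simp only [mul_assoc, mul_left_comm, mul_comm])
    (fun r c => by rw [dbl_flip_right, one_mul])
    (fun r c => by
      show dbl H r (τ (flip ι (τ.symm c))) = _
      rw [hM' r (τ (flip ι (τ.symm c))), hM' r c, Equiv.symm_apply_apply, dbl_flip_right]
      generalize dbl H' (σ.symm r) (τ.symm c) = x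
      have h1 := uu (b (τ.symm c))
      calc a (σ.symm r) * b (flip ι (τ.symm c)) * (sg (σ.symm r).1 * x)
          = 1 * (a (σ.symm r) * b (flip ι (τ.symm c)) * (sg (σ.symm r).1 * x)) := (one_mul _).symm
        _ = (b (τ.symm c) * b (τ.symm c)) * (a (σ.symm r) * b (flip ι (τ.symm c)) * (sg (σ.symm r).1 * x)) := by rw [h1]
        _ = _ := by simp only [mul_assoc, mul_left_comm, mul_comm])
    (fun r => sg_not _)
    (fun r => by
      show sg (σ.symm (σ (flip ι (σ.symm r)))).1 = _
      rw [Equiv.symm_apply_apply]; exact sg_not _)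
    (fun c => sg_not _)
    (fun c => by
      show sg (τ.symm (τ (flip ι (τ.symm c)))).1 = _
      rw [Equiv.symm_apply_apply]; exact sg_not _)
    (false, i0) (false, i0)
  -- the new equivalence
  set σ' : Equiv.Perm (Bool × ι) := σ.trans F with hσ'
  set τ' : Equiv.Perm (Bool × ι) := τ.trans G with hτ'
  have hσ1 : ∀ r, (σ' r).1 = r.1 := by
    intro r
    have := hv (σ r)
    simp only [Equiv.symm_apply_apply] at this
    exact sg_inj this
  obtain ⟨A, B, hAB⟩ : ∃ (A : Bool × ι → ℤˣ) (B : Bool × ι → ℤˣ), ∀ r c,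
      dbl H' r c = A r * B c * dbl H (σ' r) (τ' c) := by
    refine ⟨fun r => a r * a' (σ r), fun c => b c * b' (τ c), fun r c => ?_⟩
    show dbl H' r c = (a r * a' (σ r)) * (b c * b' (τ c)) * dbl H (F (σ r)) (G (τ c))
    rw [hFG, hM]
    have h1 := uu (a' (σ r))
    have h2 := uu (b' (τ c))
    calc a r * b c * dbl H (σ r) (τ c) = (1 * 1) * (a r * b c * dbl H (σ r) (τ c)) := by simp
      _ = ((a' (σ r) * a' (σ r)) * (b' (τ c) * b' (τ c))) * (a r * b c * dbl H (σ r) (τ c)) := by rw [h1, h2]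
      _ = _ := by simp only [mul_assoc, mul_left_comm, mul_comm]
  -- row map
  have hrow : Function.Injective (fun i : ι => (σ' (false, i)).2) := by
    intro i j hij
    have : σ' (false, i) = σ' (false, j) := Prod.ext (by rw [hσ1, hσ1]) hij
    exact (Prod.ext_iff.1 (σ'.injective this)).2
  have hcol : Function.Injective (fun j : ι => (τ' (false, j)).2) := by
    intro i j hij
    have hij' : (τ' (false, i)).2 = (τ' (false, j)).2 := hij
    by_cases hb : (τ' (false, i)).1 = (τ' (false, j)).1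
    · exact (Prod.ext_iff.1 (τ'.injective (Prod.ext hb hij'))).2
    · exfalso
      have hfl : τ' (false, j) = flip ι (τ' (false, i)) := by
        apply Prod.ext
        · show _ = !(τ' (false, i)).1
          revert hb
          generalize (τ' (false, i)).1 = p
          generalize (τ' (false, j)).1 = q
          revert p q; decide
        · exact hij'.symm
      -- columns `j` and `i` of `H'` would be proportional with two different signs
      have hcc : ∀ r, dbl H' r (false, j) = (B (false, j) * B (false, i)) * sg r.1 * dbl H' r (false, i) := by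
        intro r
        rw [hAB r (false, j), hfl, dbl_flip_right, hσ1, hAB r (false, i)]
        have h2 := uu (B (false, i))
        calc A r * B (false, j) * (sg r.1 * dbl H (σ' r) (τ' (false, i)))
            = 1 * (A r * B (false, j) * (sg r.1 * dbl H (σ' r) (τ' (false, i)))) := (one_mul _).symm
          _ = (B (false, i) * B (false, i)) * (A r * B (false, j) * (sg r.1 * dbl H (σ' r) (τ' (false, i)))) := by rw [h2]
          _ = _ := by simp only [mul_assoc, mul_left_comm, mul_comm]
      have e1 := hcc (false, i)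
      have e2 := hcc (true, i)
      simp only [dbl, chi, sg] at e1 e2
      simp at e1 e2
      rw [e1] at e2
      have := self_eq_neg_unit e2
      exact this
  have hrb := Finite.injective_iff_bijective.1 hrow
  have hcb := Finite.injective_iff_bijective.1 hcol
  refine ⟨Equiv.ofBijective _ hrb, Equiv.ofBijective _ hcb, fun i => A (false, i), fun j => B (false, j), ?_⟩
  intro i j
  have h1 := hAB (false, i) (false, j)
  simp only [dbl] at h1
  rw [hσ1] at h1
  simpa [chi] using h1

end double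

/-! ### Hadamard matrices -/

open Matrix

/-- `H` is a Hadamard matrix of order `n`: entries `±1` and `H Hᵀ = n I`. -/
def IsHadamard {n : ℕ} (H : Matrix (Fin n) (Fin n) ℤ) : Prop :=
  (∀ i j, H i j = 1 ∨ H i j = -1) ∧ H * Hᵀ = (n : ℤ) • (1 : Matrix (Fin n) (Fin n) ℤ)

/-- Hadamard equivalence of `n × n` matrices: `H'` arises from `H` by permuting rows (`σ`),
permuting columns (`τ`), and multiplying some rows (`a`) and some columns (`b`) by `-1`. -/
def HadEquiv {n : ℕ} (H H' : Matrix (Fin n) (Fin n) ℤ) : Prop :=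
  ∃ (σ τ : Equiv.Perm (Fin n)) (a b : Fin n → ℤˣ),
    ∀ i j, H' i j = (a i : ℤ) * (b j : ℤ) * H (σ i) (τ j)

lemma unit_sq (x : ℤˣ) : (x : ℤ) * (x : ℤ) = 1 := by
  rcases Int.units_eq_one_or x with rfl | rfl <;> simp

/-- The setoid of Hadamard equivalence on Hadamard matrices of order `n`. -/
def hadSetoid (n : ℕ) : Setoid {H : Matrix (Fin n) (Fin n) ℤ // IsHadamard H} where
  r H H' := HadEquiv H.1 H'.1
  iseqv :=
    { refl := fun H => ⟨1, 1, fun _ => 1, fun _ => 1, fun i j => by simp⟩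
      symm := by
        rintro H H' ⟨σ, τ, a, b, h⟩
        refine ⟨σ.symm, τ.symm, fun i => a (σ.symm i), fun j => b (τ.symm j), fun i j => ?_⟩
        rw [h, Equiv.apply_symm_apply, Equiv.apply_symm_apply]
        have h1 := unit_sq (a (σ.symm i))
        have h2 := unit_sq (b (τ.symm j))
        calc H.1 i j = 1 * 1 * H.1 i j := by ring
          _ = ((a (σ.symm i) : ℤ) * (a (σ.symm i) : ℤ)) * ((b (τ.symm j) : ℤ) * (b (τ.symm j) : ℤ)) * H.1 i j := by
              rw [h1, h2]
          _ = _ := by ring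
      trans := by
        rintro H H' H'' ⟨σ, τ, a, b, h⟩ ⟨σ', τ', a', b', h'⟩
        refine ⟨σ'.trans σ, τ'.trans τ, fun i => a' i * a (σ' i), fun j => b' j * b (τ' j), fun i j => ?_⟩
        rw [h', h, Equiv.trans_apply, Equiv.trans_apply]
        push_cast
        ring }

/-- The number of equivalence classes of Hadamard matrices of order `n`. -/
noncomputable def h (n : ℕ) : ℕ := Nat.card (Quotient (hadSetoid n))

/-- The index bijection for block matrices. -/
def ix (n : ℕ) : Bool × Fin n ≃ Fin (2 * n) :=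
  (Equiv.prodCongr finTwoEquiv.symm (Equiv.refl (Fin n))).trans finProdFinEquiv

/-- The block matrix `[[H, H], [H, -H]]`. -/
def D {n : ℕ} (H : Matrix (Fin n) (Fin n) ℤ) : Matrix (Fin (2 * n)) (Fin (2 * n)) ℤ :=
  fun i j => (chi ((ix n).symm i).1 ((ix n).symm j).1 : ℤ) * H ((ix n).symm i).2 ((ix n).symm j).2

lemma D_had {n : ℕ} {H : Matrix (Fin n) (Fin n) ℤ} (hH : IsHadamard H) : IsHadamard (D H) := by
  constructor
  · intro i j
    unfold D
    rcases Int.units_eq_one_or (chi ((ix n).symm i).1 ((ix n).symm j).1) with h1 | h1 <;>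
      rcases hH.1 ((ix n).symm i).2 ((ix n).symm j).2 with h2 | h2 <;> rw [h1, h2] <;> simp
  · ext i j
    rw [Matrix.mul_apply, Matrix.smul_apply, Matrix.one_apply]
    obtain ⟨⟨e, i⟩, rfl⟩ := (ix n).surjective i
    obtain ⟨⟨d, j⟩, rfl⟩ := (ix n).surjective j
    rw [← (ix n).sum_comp, Fintype.sum_prod_type]
    simp only [D, Matrix.transpose_apply, Equiv.symm_apply_apply]
    have hij : ∑ k, H i k * H j k = (n : ℤ) * (if i = j then 1 else 0) := by
      have := congrFun (congrFun hH.2 i) j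
      rw [Matrix.mul_apply, Matrix.smul_apply, Matrix.one_apply] at this
      simpa using this
    have e1 : ∀ x : Bool, ∑ k, (chi e x : ℤ) * H i k * ((chi d x : ℤ) * H j k) =
        (chi e x : ℤ) * (chi d x : ℤ) * ((n : ℤ) * (if i = j then 1 else 0)) := by
      intro x
      rw [← hij, Finset.mul_sum]
      apply Finset.sum_congr rfl
      intro k _; ring
    simp only [e1]
    rw [Fintype.sum_bool]
    by_cases hij' : i = j
    · subst hij'
      cases e <;> cases d <;> simp [chi] <;> ring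
    · cases e <;> cases d <;> simp [chi, hij']

/-- Sign version of a Hadamard matrix. -/
lemma exists_sign {n : ℕ} {H : Matrix (Fin n) (Fin n) ℤ} (hH : IsHadamard H) :
    ∃ M : Fin n → Fin n → ℤˣ, ∀ i j, (M i j : ℤ) = H i j := by
  refine ⟨fun i j => if H i j = 1 then 1 else -1, fun i j => ?_⟩
  rcases hH.1 i j with h1 | h1 <;> simp [h1]

lemma D_inj {n : ℕ} {H H' : Matrix (Fin n) (Fin n) ℤ} (hH : IsHadamard H) (hH' : IsHadamard H')
    (h : HadEquiv (D H) (D H')) : HadEquiv H H' := by
  obtain ⟨M, hM⟩ := exists_sign hH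
  obtain ⟨M', hM'⟩ := exists_sign hH'
  obtain ⟨σ, τ, a, b, hab⟩ := h
  have h1 : SEq (dbl M) (dbl M') := by
    refine ⟨((ix n).trans σ).trans (ix n).symm, ((ix n).trans τ).trans (ix n).symm,
      fun r => a (ix n r), fun c => b (ix n c), fun r c => ?_⟩
    apply Units.ext
    have := hab (ix n r) (ix n c)
    simp only [D, Equiv.symm_apply_apply] at this
    simp only [dbl, Units.val_mul, Equiv.trans_apply, hM, hM']
    exact this
  obtain ⟨σ', τ', a', b', h2⟩ := dbl_injective M M' h1
  refine ⟨σ', τ', a', b', fun i j => ?_⟩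
  have := congrArg Units.val (h2 i j)
  simp only [Units.val_mul, hM, hM'] at this
  exact this

lemma D_congr {n : ℕ} {H H' : Matrix (Fin n) (Fin n) ℤ} (h : HadEquiv H H') : HadEquiv (D H) (D H') := by
  obtain ⟨σ, τ, a, b, hab⟩ := h
  refine ⟨((ix n).symm.trans (Equiv.prodCongr (Equiv.refl Bool) σ)).trans (ix n),
    ((ix n).symm.trans (Equiv.prodCongr (Equiv.refl Bool) τ)).trans (ix n),
    fun i => a ((ix n).symm i).2, fun j => b ((ix n).symm j).2, fun i j => ?_⟩
  simp only [D, Equiv.trans_apply, Equiv.symm_apply_apply, hab, Equiv.prodCongr_apply, Prod.map,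
    Equiv.refl_apply]
  ring

lemma finite_had (n : ℕ) : Finite {H : Matrix (Fin n) (Fin n) ℤ // IsHadamard H} := by
  choose f hf using fun H : {H : Matrix (Fin n) (Fin n) ℤ // IsHadamard H} => exists_sign H.2
  apply Finite.of_injective f
  intro H H' e
  apply Subtype.ext
  ext i j
  rw [← hf H, ← hf H', e]

/-- **`h(n) ≤ h(2n)`.** In fact doubling `H ↦ [[H,H],[H,-H]]` induces an injective map from
equivalence classes of Hadamard matrices of order `n` to those of order `2n`. -/
theorem result :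
    (∀ n : ℕ, 1 ≤ n → h n ≤ h (2 * n)) ∧
    (∀ n : ℕ, ∀ H H' : Matrix (Fin n) (Fin n) ℤ, IsHadamard H → IsHadamard H' →
      IsHadamard (D H) ∧ (HadEquiv (D H) (D H') ↔ HadEquiv H H')) := by
  constructor
  · intro n _
    have := finite_had (2 * n)
    have hfin : Finite (Quotient (hadSetoid (2 * n))) := Quotient.finite _
    let φ : Quotient (hadSetoid n) → Quotient (hadSetoid (2 * n)) :=
      Quotient.map' (s₁ := hadSetoid n) (s₂ := hadSetoid (2 * n)) (fun H => ⟨D H.1, D_had H.2⟩) (fun H H' hHH => D_congr hHH)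
    have hφ : Function.Injective φ := by
      intro x y hxy
      induction x using Quotient.inductionOn' with | _ H
      induction y using Quotient.inductionOn' with | _ H'
      have h1 : HadEquiv (D H.1) (D H'.1) := Quotient.exact hxy
      exact Quotient.sound (D_inj H.2 H'.2 h1)
    exact Nat.card_le_card_of_injective φ hφ
  · intro n H H' hH hH'
    exact ⟨D_had hH, D_inj hH hH', D_congr⟩

end Pool.Agent.Results.MP_ced6ff_co.Doubling
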